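import Pool.Agent.Y121.NK.StdD
import Pool.Agent.Y121.NK.HomDefs

/-!
# The noncommutative standard conjecture D for endomorphisms of geometric noncommutative motives

`𝒱` is a class of smooth projective geometrically irreducible varieties over the field `k` closed
under products, `C` the Chow groups with rational coefficients (in the form of their formal
properties, `IsChowProj`), `H` a Weil cohomology theory (`IsWeilProj`), finite-dimensional on
`X × X`.

Dictionary. The map `α ↦ ch(α) √td(X × Y)` is an isomorphism of `K_0(X × Y)_ℚ` with the group
`CH^*(X × Y)_ℚ` of classes of all degrees, compatible with compositions. So a direct summand of the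
noncommutative Chow motive `U(perf_dg X)_ℚ` (for example `U(𝒜)_ℚ` for an admissible subcategory `𝒜`
of `perf_dg X`) is a pair `(X, e)` with an idempotent `e` of `C.A (X × X)`, not necessarily
homogeneous, and `K_0(𝒜^op ⊗ 𝒜)_ℚ = e ∘ CH^*(X × X)_ℚ ∘ e`; the kernel of its Euler form consists of
the numerically trivial classes in it. The Chow motives are the pairs `(X, p)` with `p` of
codimension `dim X`.

`StdDNC H e` is the equality of Q1 of the problem for the dg category `𝒜^op ⊗ 𝒜`, `𝒜 = (X, e)`;
`StdDChow H p` is Grothendieck's standard conjecture D for `M^∨ ⊗ M`, `M = (X, p)`, in all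
codimensions.

Theorem. Let `e` be idempotent modulo homological equivalence. The noncommutative standard
conjecture D holds for `𝒜^op ⊗ 𝒜`, `𝒜 = (X, e)`, if and only if `𝒜` is isomorphic, modulo homological
equivalence, to the image of a Chow motive `M = (X, p)` such that Grothendieck's conjecture D holds
for `M^∨ ⊗ M`; here one can take `p = e` if `e` is homogeneous.

Idea of the proof: modulo homological equivalence the radical `J` of the trace form has `e J e = 0`,
so `J e R` is a nilpotent ideal; this property passes to the homogeneous components of `e`. In the
semisimple quotient of `C.A (X × X)` the left ideal of `e` degenerates to the homogeneous ideal of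
its initial forms, which is generated by a homogeneous idempotent and isomorphic to it; the idempotent
and the isomorphism can be lifted.
-/

open CategoryTheory AlgebraicGeometry

set_option autoImplicit false

universe u v w

namespace Pool.Agent.Results.MP_28af06_ag.GeometricStdD

open Pool.Agent.H914 Pool.Agent.H914.VarClass Pool.Agent.H914.VarClass.Obj Pool.Agent.W492.BB
  Pool.Agent.W550.Corr Pool.Agent.TH133 Pool.Agent.Y121.NK

/-- The noncommutative standard conjecture D holds for `𝒜^op ⊗ 𝒜`, where `𝒜 = (X, e)` is a direct
summand of the noncommutative motive of `X`, if and only if `𝒜` is isomorphic, modulo homological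
equivalence, to a Chow motive `M = (X, p)` such that Grothendieck's standard conjecture D holds for
`M^∨ ⊗ M`, with `p = e` if `e` is homogeneous. -/
theorem result {k : Type u} [Field k] {𝒱 : VarClass k} {C : TheoryData.{u, v, 0} 𝒱 ℚ}
    [IsChowProj C] {K : Type w} [Field K] (H : WeilTheoryData.{u, v, w} C K) [IsWeilProj H]
    (X : 𝒱.Obj) [FiniteDimensional K (H.A (X.prod X))] (e : C.A (X.prod X))
    (he : HomEq H (C.comp e e) e) :
    StdDNC H e ↔ ∃ p u v : C.A (X.prod X), C.Deg X.dim p ∧ HomEq H (C.comp p p) p ∧
      HomEq H (C.comp u v) e ∧ HomEq H (C.comp v u) p ∧ (C.Deg X.dim e → p = e) ∧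
      StdDChow H p :=
  stdD_main H X e he

end Pool.Agent.Results.MP_28af06_ag.GeometricStdD
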