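import Pool.Agent.Y121.ZI.Asm

/-!
# MP_28af06_ag: the zero-infinity law for the noncommutative standard conjecture of type D

For every smooth proper dg category `A`: either the noncommutative standard conjecture of type D
holds for all `A^{⊗ m} ⊗ (A^{⊗ n})^op`, or the rank of `K_0` modulo numerical equivalence of
`A^{⊗ n} ⊗ (A^{⊗ n})^op` divided by the dimension of the span of the Chern characters tends to `0`.

Main steps of the proof.

* The ranks `al n` of the (super)trace form on the endomorphisms of `A^{⊗ n}` form a logarithmically
  convex sequence (Cauchy-Schwarz inequality for the ranks of trace forms on algebras of operators,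
  and duality), bounded by `(dim H(A))^{2 n}`; the operators of permutation of the factors give a
  lower bound for the dimensions of the spaces of classes.
* If the quotients `al (n + 1) / al n` do not tend to `(dim H(A))^2`, the ranks are exponentially
  small. Otherwise all numerically trivial endomorphisms of suitable products of factors
  `X ⊗ X^op`, `X = A^{⊗ m} ⊗ (A^{⊗ k})^op`, are nilpotent; a numerically trivial class which is not
  homologically trivial yields descending sequences of classes of any length on such products, and
  by minimal idempotents and the rank bounds each step contributes at least `(1 - ε) al n` to the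
  dimension of the span of the classes of `A^{⊗ n} ⊗ (A^{⊗ n})^op`.
-/

open Filter Topology

universe u v w

namespace Pool.Agent.Results.MP_28af06_ag.ZeroInfinity

open Pool.Agent.Y121.ZI

/-- The zero-infinity law. -/
theorem result {K : Type u} [Field K] [CharZero K] (T : NCTheory.{u, v, w} K) (A : T.Obj) :
    (∀ m n, T.StdD (T.ten (T.pow A m) (T.op (T.pow A n)))) ∨
      Tendsto (fun n => (T.rank (T.ten (T.pow A n) (T.op (T.pow A n))) : ℝ) /
        T.dim (T.ten (T.pow A n) (T.op (T.pow A n)))) atTop (𝓝 0) :=
  T.zero_infinity A

end Pool.Agent.Results.MP_28af06_ag.ZeroInfinity
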